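import Pool.Agent.Helper32.AG.Goals

set_option autoImplicit false

namespace Pool.Agent.Helper42.AG

theorem two_sq_le (a : ℕ) (ha : 0 < a) : 2 * a ^ 2 ≤ 3 ^ a := by
  induction a with
  | zero => omega
  | succ n ih =>
    rcases Nat.lt_or_ge n 3 with h | h
    · interval_cases n <;> norm_num
    · have := ih (by omega)
      have h2 : 3 ^ (n + 1) = 3 * 3 ^ n := by ring
      rw [h2]
      nlinarith

theorem pow_four_le (q : ℕ) (hq : 3 ≤ q) : q ^ 4 ≤ 3 ^ (q + 2) := by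
  induction q, hq using Nat.le_induction with
  | base => norm_num
  | succ n hn ih =>
    have h1 : (n + 1) ^ 4 ≤ 3 * n ^ 4 + n ^ 4 := by
      nlinarith [sq_nonneg n, pow_pos (show 0 < n by omega) 3]
    rcases Nat.lt_or_ge n 5 with h | h
    · interval_cases n <;> norm_num
    · have h2 : (n + 1) ^ 4 ≤ 3 * n ^ 4 := by
        nlinarith [sq_nonneg n, pow_pos (show 0 < n by omega) 3,
          Nat.mul_le_mul_right (n ^ 3) h, Nat.mul_le_mul_right (n ^ 2) h, Nat.mul_le_mul_right n h]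
      calc (n + 1) ^ 4 ≤ 3 * n ^ 4 := h2
        _ ≤ 3 * 3 ^ (n + 2) := by omega
        _ = 3 ^ (n + 1 + 2) := by rw [show n + 1 + 2 = (n + 2) + 1 by ring, pow_succ 3 (n + 2)]; ring

theorem n4 : Pool.Agent.Helper32.AG.N4Stmt := by
  intro p a b r hp hp2 ha hb h
  have hp3 : 3 ≤ p := by
    have := hp.two_le
    omega
  obtain ⟨c, rfl⟩ : ∃ c, b = c + 2 := ⟨b - 2, by omega⟩
  set q := p ^ a with hq
  have hq3a : 3 ^ a ≤ q := Nat.pow_le_pow_left hp3 a
  have hq3 : 3 ≤ q := by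
    have : 3 ^ 1 ≤ 3 ^ a := Nat.pow_le_pow_right (by norm_num) ha
    omega
  have h2a : 2 * a ^ 2 ≤ q := (two_sq_le a ha).trans hq3a
  have hpw : p ^ (2 * a * (c + 2)) = q ^ (2 * c) * q ^ 4 := by
    rw [hq, ← pow_mul, ← pow_mul, ← pow_add]
    congr 1
    ring
  rw [hpw] at h ⊢
  set N := q ^ (2 * c) with hN
  have hN1 : 2 * c + 1 ≤ N := by
    have h1 : 2 * c < 2 ^ (2 * c) := Nat.lt_two_pow_self
    have h2 : 2 ^ (2 * c) ≤ q ^ (2 * c) := Nat.pow_le_pow_left (by omega) _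
    omega
  obtain ⟨w, hw⟩ : ∃ w, q = w + 1 := ⟨q - 1, by omega⟩
  have hr : N * (q + 2) ≤ r := by
    by_contra hcon
    have h1 : r + 1 ≤ N * (q + 2) := by omega
    have h2 : r * (2 * a ^ 2 * (q - 1) ^ 2) ≤ r * (q * (q - 1) ^ 2) := by gcongr
    have h3 : (r + 1) * (q * (q - 1) ^ 2) ≤ N * (q + 2) * (q * (q - 1) ^ 2) := by gcongr
    have hw1 : q - 1 = w := by omega
    rw [hw1] at h2 h3 h
    have h4 : N * q ^ 4 ≤ r * (q * w ^ 2) + 1 := by omega
    rw [hw] at h3 h4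
    have hw2 : 2 ≤ w := by omega
    have hN0 : 1 ≤ N := by omega
    nlinarith [mul_pos (show 0 < N by omega) (show 0 < w by omega), pow_pos (show 0 < w by omega) 2,
      pow_pos (show 0 < w by omega) 3, mul_pos (show 0 < N by omega) (pow_pos (show 0 < w by omega) 2)]
  have h5 : (q ^ 4) ^ N ≤ 3 ^ r := by
    calc (q ^ 4) ^ N ≤ (3 ^ (q + 2)) ^ N := Nat.pow_le_pow_left (pow_four_le q hq3) N
      _ = 3 ^ (N * (q + 2)) := by rw [← pow_mul]; congr 1; ring
      _ ≤ 3 ^ r := Nat.pow_le_pow_right (by norm_num) hr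
  refine le_trans ?_ h5
  have h6 : N * q ^ 4 = q ^ (2 * c + 4) := by rw [hN, ← pow_add]
  have h7 : (q ^ 4) ^ N = q ^ (4 * N) := by rw [← pow_mul]
  rw [h6, h7]
  exact Nat.pow_le_pow_right (by omega) (by omega)

end Pool.Agent.Helper42.AG
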