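import Pool.Agent.Helper32.AG.Goals

set_option autoImplicit false

namespace Pool.Agent.Helper42.AG

universe u v

section gal

variable {p : ℕ} [Fact p.Prime]

theorem card_gal {a : ℕ} (K : Type u) [Field K] [Algebra (ZMod p) K] [Finite K]
    (h : Nat.card K = p ^ a) : Nat.card (K ≃ₐ[ZMod p] K) = a := by
  have h1 := IsGalois.card_aut_eq_finrank (ZMod p) K
  have h2 : Nat.card K = Nat.card (ZMod p) ^ Module.finrank (ZMod p) K :=
    Module.natCard_eq_pow_finrank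
  rw [h, Nat.card_zmod] at h2
  rw [h1]
  exact (Nat.pow_right_injective (Fact.out : p.Prime).two_le h2).symm

theorem comm_gal (K : Type u) [Field K] [Algebra (ZMod p) K] [Finite K]
    (σ τ : K ≃ₐ[ZMod p] K) : σ * τ = τ * σ := by
  have : IsCyclic (K ≃ₐ[ZMod p] K) := inferInstance
  obtain ⟨g, hg⟩ := this
  obtain ⟨m, rfl⟩ := hg σ
  obtain ⟨n, rfl⟩ := hg τ
  simp only [← zpow_add, add_comm]

end gal

section abstract

variable {p : ℕ} [Fact p.Prime] {R : Type u} [CommRing R] [Algebra (ZMod p) R]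

/-- the annihilator of `e` -/
def J (e : R) : Ideal R where
  carrier := {z | z * e = 0}
  add_mem' := by
    intro a b ha hb
    have ha' : a * e = 0 := ha
    have hb' : b * e = 0 := hb
    show (a + b) * e = 0
    rw [add_mul, ha', hb', add_zero]
  zero_mem' := by
    show (0 : R) * e = 0
    exact zero_mul _
  smul_mem' := by
    intro c x hx
    have hx' : x * e = 0 := hx
    show c * x * e = 0
    rw [mul_assoc, hx', mul_zero]

theorem mem_J {e z : R} : z ∈ J e ↔ z * e = 0 := Iff.rfl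

theorem J_max {e : R} (h0 : e ≠ 0) (hf : ∀ x : R, x * e ≠ 0 → ∃ y, x * y * e = e) :
    (J e).IsMaximal := by
  rw [Ideal.isMaximal_iff]
  refine ⟨fun h => h0 (by simpa using mem_J.1 h), fun I x hI hx hxI => ?_⟩
  obtain ⟨y, hy⟩ := hf x (fun h => hx (mem_J.2 h))
  have h1 : x * y - 1 ∈ J e := by rw [mem_J, sub_mul, one_mul, hy, sub_self]
  have h2 : x * y ∈ I := I.mul_mem_right y hxI
  have := I.sub_mem h2 (hI h1)
  simpa using this

theorem card_quot (e : R) : Nat.card (R ⧸ J e) = Nat.card {z : R // ∃ x, z = x * e} := by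
  let g : R →ₗ[R] R := LinearMap.toSpanSingleton R R e
  have hk : J e = LinearMap.ker g := by
    ext z
    simp [mem_J, g]
  have h1 : Nat.card (R ⧸ J e) = Nat.card (R ⧸ LinearMap.ker g) := by rw [hk]
  rw [h1, Nat.card_congr g.quotKerEquivRange.toEquiv]
  refine Nat.card_congr (Equiv.subtypeEquivRight fun z => ?_)
  simp only [LinearMap.mem_range, LinearMap.toSpanSingleton_apply, smul_eq_mul, g]
  exact ⟨fun ⟨y, h⟩ => ⟨y, h.symm⟩, fun ⟨y, h⟩ => ⟨y, h.symm⟩⟩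

/-- the automorphisms which fix `e` -/
def St (p : ℕ) [Fact p.Prime] {R : Type u} [CommRing R] [Algebra (ZMod p) R] (e : R) :
    Subgroup (R ≃ₐ[ZMod p] R) where
  carrier := {σ | σ e = e}
  mul_mem' := by
    intro σ τ hs ht
    have hs' : σ e = e := hs
    have ht' : τ e = e := ht
    show σ (τ e) = e
    rw [ht', hs']
  one_mem' := rfl
  inv_mem' := by
    intro σ hs
    have hs' : σ e = e := hs
    show σ.symm e = e
    rw [AlgEquiv.symm_apply_eq, hs']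

theorem map_J {e e' : R} (σ : R ≃ₐ[ZMod p] R) (h : σ e = e') :
    J e' = (J e).map (σ : R →+* R) := by
  ext z
  constructor
  · intro hz
    have h1 : σ.symm z ∈ J e := by
      rw [mem_J]
      apply σ.injective
      rw [map_mul, h, AlgEquiv.apply_symm_apply, map_zero]
      exact mem_J.1 hz
    have := Ideal.mem_map_of_mem (σ : R →+* R) h1
    simpa using this
  · intro hz
    refine (Ideal.map_le_iff_le_comap.2 ?_) hz
    intro y hy
    rw [Ideal.mem_comap, mem_J]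
    have : σ (y * e) = 0 := by rw [mem_J.1 hy, map_zero]
    rw [map_mul, h] at this
    exact this

/-- the induced automorphism of the quotient -/
noncomputable def qt (e : R) : St p e →* ((R ⧸ J e) ≃ₐ[ZMod p] (R ⧸ J e)) where
  toFun σ := Ideal.quotientEquivAlg (J e) (J e) σ.1 (map_J σ.1 σ.2)
  map_one' := by
    ext x
    obtain ⟨y, rfl⟩ := Ideal.Quotient.mk_surjective x
    rfl
  map_mul' σ τ := by
    ext x
    obtain ⟨y, rfl⟩ := Ideal.Quotient.mk_surjective x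
    rfl

theorem qt_mk (e : R) (σ : St p e) (y : R) :
    qt e σ (Ideal.Quotient.mk (J e) y) = Ideal.Quotient.mk (J e) (σ.1 y) := rfl

theorem qt_eq_one (e : R) (σ : St p e) : qt e σ = 1 ↔ ∀ y, (σ.1 y - y) * e = 0 := by
  constructor
  · intro h y
    have h1 := qt_mk e σ y
    rw [h] at h1
    have h2 : Ideal.Quotient.mk (J e) (σ.1 y) = Ideal.Quotient.mk (J e) y := h1.symm
    rw [Ideal.Quotient.eq] at h2
    exact mem_J.1 h2
  · intro h
    ext x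
    obtain ⟨y, rfl⟩ := Ideal.Quotient.mk_surjective x
    rw [qt_mk]
    show _ = Ideal.Quotient.mk (J e) y
    rw [Ideal.Quotient.eq]
    exact mem_J.2 (h y)

theorem abs_main {a : ℕ} [Finite R] (e0 e1 : R) (h00 : e0 ≠ 0) (h11 : e1 ≠ 0)
    (i0 : e0 * e0 = e0) (i1 : e1 * e1 = e1) (h01 : e0 * e1 = 0) (hs : e0 + e1 = 1)
    (f0 : ∀ x : R, x * e0 ≠ 0 → ∃ y, x * y * e0 = e0)
    (f1 : ∀ x : R, x * e1 ≠ 0 → ∃ y, x * y * e1 = e1)
    (c0 : Nat.card {z : R // ∃ x, z = x * e0} = p ^ a)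
    (c1 : Nat.card {z : R // ∃ x, z = x * e1} = p ^ a)
    {G : Type v} [Group G] [Finite G] (Θ : G →* (R ≃ₐ[ZMod p] R))
    (hp : ∀ g, Θ g e0 = e0 ∨ Θ g e0 = e1) (ht : ∃ t, Θ t e0 = e1) :
    ∃ M : Subgroup G, Θ.ker ≤ M ∧ Nat.card G = 2 * Nat.card M ∧
      ∃ f : ℕ, 0 < f ∧ Nat.card M = f * Nat.card Θ.ker ∧ f ∣ a ^ 2 ∧
        (∀ x ∈ M, ∀ y ∈ M, x * y * x⁻¹ * y⁻¹ ∈ Θ.ker) ∧
        (2 ≤ a → f = a ^ 2 → ∃ x y : G, x * y * x⁻¹ * y⁻¹ ∉ Θ.ker) := by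
  classical
  have hne : e0 ≠ e1 := by
    intro h
    apply h00
    rw [← i0]
    nth_rewrite 2 [h]
    exact h01
  have he1 : e1 = 1 - e0 := by rw [← hs]; ring
  have m0 := J_max h00 f0
  have m1 := J_max h11 f1
  have fin0 : Finite (R ⧸ J e0) := Finite.of_surjective _ (Ideal.Quotient.mk_surjective (I := J e0))
  have fin1 : Finite (R ⧸ J e1) := Finite.of_surjective _ (Ideal.Quotient.mk_surjective (I := J e1))
  have F0 : IsField (R ⧸ J e0) := (Ideal.Quotient.maximal_ideal_iff_isField_quotient _).1 m0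
  have F1 : IsField (R ⧸ J e1) := (Ideal.Quotient.maximal_ideal_iff_isField_quotient _).1 m1
  have g0 : Nat.card ((R ⧸ J e0) ≃ₐ[ZMod p] (R ⧸ J e0)) = a := by
    let _ : Field (R ⧸ J e0) := F0.toField
    exact card_gal (R ⧸ J e0) (by rw [card_quot, c0])
  have g1 : Nat.card ((R ⧸ J e1) ≃ₐ[ZMod p] (R ⧸ J e1)) = a := by
    let _ : Field (R ⧸ J e1) := F1.toField
    exact card_gal (R ⧸ J e1) (by rw [card_quot, c1])
  have q0 : ∀ σ τ : (R ⧸ J e0) ≃ₐ[ZMod p] (R ⧸ J e0), σ * τ = τ * σ := by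
    let _ : Field (R ⧸ J e0) := F0.toField
    exact comm_gal (R ⧸ J e0)
  have q1 : ∀ σ τ : (R ⧸ J e1) ≃ₐ[ZMod p] (R ⧸ J e1), σ * τ = τ * σ := by
    let _ : Field (R ⧸ J e1) := F1.toField
    exact comm_gal (R ⧸ J e1)
  -- the stabilizer
  set M : Subgroup G := (St p e0).comap Θ with hM
  have hM0 : ∀ g, g ∈ M ↔ Θ g e0 = e0 := fun g => Iff.rfl
  have hM1 : ∀ g, g ∈ M → Θ g e1 = e1 := by
    intro g hg
    rw [he1, map_sub, map_one, (hM0 g).1 hg]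
  have hsw : ∀ g, Θ g e0 = e1 → Θ g e1 = e0 := by
    intro g hg
    have : e0 = 1 - e1 := by rw [← hs]; ring
    rw [he1, map_sub, map_one, hg]
    exact this.symm
  -- index 2
  obtain ⟨t, htt⟩ := ht
  have hidx : M.index = 2 := by
    rw [Subgroup.index_eq_two_iff]
    refine ⟨t, fun b => ?_⟩
    rw [hM0, hM0, map_mul, AlgEquiv.mul_apply, htt]
    rcases hp b with h | h
    · right
      refine ⟨h, ?_⟩
      have : Θ b e1 = e1 := hM1 b h
      rw [this]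
      exact hne.symm
    · left
      refine ⟨hsw b h, ?_⟩
      rw [h]
      exact hne.symm
  have hcard : Nat.card G = 2 * Nat.card M := by
    rw [← hidx, Subgroup.index_mul_card]
  -- the homomorphism
  let Ψ0 : M →* ((R ⧸ J e0) ≃ₐ[ZMod p] (R ⧸ J e0)) :=
    (qt e0).comp ((Θ.comp M.subtype).codRestrict (St p e0) (fun g => g.2))
  let Ψ1 : M →* ((R ⧸ J e1) ≃ₐ[ZMod p] (R ⧸ J e1)) :=
    (qt e1).comp ((Θ.comp M.subtype).codRestrict (St p e1) (fun g => hM1 g.1 g.2))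
  let Ψ := Ψ0.prod Ψ1
  have hΨ0 : ∀ g : M, Ψ0 g = 1 ↔ ∀ y, (Θ g.1 y - y) * e0 = 0 := fun g => qt_eq_one e0 _
  have hΨ1 : ∀ g : M, Ψ1 g = 1 ↔ ∀ y, (Θ g.1 y - y) * e1 = 0 := fun g => qt_eq_one e1 _
  have hker : ∀ g : M, Ψ g = 1 ↔ g.1 ∈ Θ.ker := by
    intro g
    rw [MonoidHom.mem_ker]
    constructor
    · intro h
      have h0 : Ψ0 g = 1 := congrArg Prod.fst h
      have h1 : Ψ1 g = 1 := congrArg Prod.snd h
      ext y
      have := (hΨ0 g).1 h0 y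
      have h2 := (hΨ1 g).1 h1 y
      have h3 : Θ g.1 y - y = (Θ g.1 y - y) * e0 + (Θ g.1 y - y) * e1 := by
        rw [← mul_add, hs, mul_one]
      rw [this, h2, add_zero, sub_eq_zero] at h3
      exact h3
    · intro h
      have h0 : Ψ0 g = 1 := (hΨ0 g).2 fun y => by rw [h]; simp
      have h1 : Ψ1 g = 1 := (hΨ1 g).2 fun y => by rw [h]; simp
      exact Prod.ext h0 h1
  have hkM : Θ.ker ≤ M := by
    intro g hg
    rw [hM0, MonoidHom.mem_ker.1 hg]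
    rfl
  have hck : Nat.card Ψ.ker = Nat.card Θ.ker := by
    refine Nat.card_congr ⟨fun g => ⟨g.1.1, (hker g.1).1 g.2⟩,
      fun g => ⟨⟨g.1, hkM g.2⟩, (hker ⟨g.1, hkM g.2⟩).2 g.2⟩, fun g => rfl, fun g => rfl⟩
  have hMc : Nat.card M = Nat.card Ψ.range * Nat.card Ψ.ker := by
    rw [Subgroup.card_eq_card_quotient_mul_card_subgroup Ψ.ker,
      Nat.card_congr (QuotientGroup.quotientKerEquivRange Ψ).toEquiv]
  have hGG : Nat.card (((R ⧸ J e0) ≃ₐ[ZMod p] (R ⧸ J e0)) ×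
      ((R ⧸ J e1) ≃ₐ[ZMod p] (R ⧸ J e1))) = a ^ 2 := by
    rw [Nat.card_prod, g0, g1, sq]
  have hMpos : 0 < Nat.card M := Nat.card_pos
  refine ⟨M, hkM, hcard, Nat.card Ψ.range, ?_, by rw [hMc, hck], ?_, ?_, ?_⟩
  · rcases Nat.eq_zero_or_pos (Nat.card Ψ.range) with h | h
    · rw [h, zero_mul] at hMc
      omega
    · exact h
  · rw [← hGG]
    exact Subgroup.card_subgroup_dvd_card _
  · intro x hx y hy
    refine (hker (⟨x, hx⟩ * ⟨y, hy⟩ * ⟨x, hx⟩⁻¹ * ⟨y, hy⟩⁻¹)).1 ?_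
    rw [map_mul, map_mul, map_mul, map_inv, map_inv]
    have : Ψ ⟨x, hx⟩ * Ψ ⟨y, hy⟩ = Ψ ⟨y, hy⟩ * Ψ ⟨x, hx⟩ := Prod.ext (q0 _ _) (q1 _ _)
    rw [this]
    group
  · intro ha hf
    have htop : Ψ.range = ⊤ := by
      have hfin : Finite (((R ⧸ J e0) ≃ₐ[ZMod p] (R ⧸ J e0)) ×
        ((R ⧸ J e1) ≃ₐ[ZMod p] (R ⧸ J e1))) := by
        apply Nat.finite_of_card_ne_zero
        rw [hGG]
        positivity
      exact Subgroup.eq_top_of_card_eq _ (by rw [hf, hGG])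
    have hex : ∃ σ : (R ⧸ J e0) ≃ₐ[ZMod p] (R ⧸ J e0), σ ≠ 1 := by
      by_contra hcon
      push Not at hcon
      have : Subsingleton ((R ⧸ J e0) ≃ₐ[ZMod p] (R ⧸ J e0)) :=
        ⟨fun x y => by rw [hcon x, hcon y]⟩
      have h9 : Nat.card ((R ⧸ J e0) ≃ₐ[ZMod p] (R ⧸ J e0)) = 1 :=
        Nat.card_of_subsingleton (1 : (R ⧸ J e0) ≃ₐ[ZMod p] (R ⧸ J e0))
      omega
    obtain ⟨σ, hσ⟩ := hex
    have hmem : ((σ, 1) : ((R ⧸ J e0) ≃ₐ[ZMod p] (R ⧸ J e0)) ×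
      ((R ⧸ J e1) ≃ₐ[ZMod p] (R ⧸ J e1))) ∈ Ψ.range := by rw [htop]; trivial
    obtain ⟨m, hm⟩ := hmem
    have hm0 : Ψ0 m = σ := congrArg Prod.fst hm
    have hm1 : Ψ1 m = 1 := congrArg Prod.snd hm
    refine ⟨t, m.1, fun hcon => hσ ?_⟩
    rw [← hm0]
    rw [hΨ0]
    intro y
    have h1 := (hΨ1 m).1 hm1 (Θ t⁻¹ y)
    rw [MonoidHom.mem_ker] at hcon
    have h2 : Θ t * Θ m.1 * Θ t⁻¹ = Θ m.1 := by
      rw [map_mul, map_mul, map_mul, map_inv Θ m.1] at hcon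
      exact mul_inv_eq_one.1 hcon
    have h3 : Θ m.1 y = Θ t (Θ m.1 (Θ t⁻¹ y)) := by
      conv_lhs => rw [← h2]
      rfl
    have h4 : y = Θ t (Θ t⁻¹ y) := by
      have : Θ t * Θ t⁻¹ = 1 := by rw [← map_mul, mul_inv_cancel, map_one]
      have := congrArg (fun φ : R ≃ₐ[ZMod p] R => φ y) this
      exact this.symm
    have h5 := congrArg (Θ t) h1
    rw [map_mul, map_sub, map_zero, hsw t htt, ← h3, ← h4] at h5
    exact h5

end abstract

section appl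

open Pool.Agent.Helper32.AG

variable {p : ℕ} [Fact p.Prime] {U : Type u} [AddCommGroup U] [Module (ZMod p) U]

/-- conjugation as an algebra automorphism of the endomorphism algebra -/
noncomputable def conj (h : U ≃ₗ[ZMod p] U) :
    Module.End (ZMod p) U ≃ₐ[ZMod p] Module.End (ZMod p) U where
  toFun := cj h
  invFun := cj h⁻¹
  left_inv x := by
    ext u
    simp [cj]
  right_inv x := by
    ext u
    simp [cj]
  map_mul' x y := by
    ext u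
    simp [cj]
  map_add' x y := by
    ext u
    simp [cj]
  commutes' c := by
    ext u
    simp [cj]

theorem conj_apply (h : U ≃ₗ[ZMod p] U) (x : Module.End (ZMod p) U) : conj h x = cj h x := rfl

theorem cj_one (x : Module.End (ZMod p) U) : cj (1 : U ≃ₗ[ZMod p] U) x = x := by
  ext u
  simp [cj]

theorem cj_mul (g h : U ≃ₗ[ZMod p] U) (x : Module.End (ZMod p) U) :
    cj (g * h) x = cj g (cj h x) := by
  ext u
  simp [cj, mul_inv_rev]

theorem cj_coe (g h : U ≃ₗ[ZMod p] U) :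
    cj g (h : Module.End (ZMod p) U) = ((g * h * g⁻¹ : U ≃ₗ[ZMod p] U) : Module.End (ZMod p) U) := by
  ext u
  simp [cj]

theorem mem_Rg {A : Subgroup (U ≃ₗ[ZMod p] U)} {a : U ≃ₗ[ZMod p] U} (ha : a ∈ A) :
    (a : Module.End (ZMod p) U) ∈ Rg A :=
  Algebra.subset_adjoin ⟨a, ha, rfl⟩

theorem cj_mem {H A : Subgroup (U ≃ₗ[ZMod p] U)} (hn : ∀ h ∈ H, ∀ a ∈ A, h * a * h⁻¹ ∈ A)
    {h : U ≃ₗ[ZMod p] U} (hh : h ∈ H) {x : Module.End (ZMod p) U} (hx : x ∈ Rg A) :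
    cj h x ∈ Rg A := by
  have : Rg A ≤ (Rg A).comap (conj h : Module.End (ZMod p) U →ₐ[ZMod p] Module.End (ZMod p) U) := by
    refine Algebra.adjoin_le ?_
    rintro _ ⟨a, ha, rfl⟩
    show cj h (a : Module.End (ZMod p) U) ∈ Rg A
    rw [cj_coe]
    exact mem_Rg (hn h hh a ha)
  exact this hx

theorem Rg_comm {A : Subgroup (U ≃ₗ[ZMod p] U)} (hA : ∀ a ∈ A, ∀ b ∈ A, a * b = b * a)
    {x y : Module.End (ZMod p) U} (hx : x ∈ Rg A) (hy : y ∈ Rg A) : x * y = y * x := by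
  have hc : ∀ a ∈ ((fun a : U ≃ₗ[ZMod p] U => (a : Module.End (ZMod p) U)) '' (A : Set _)),
      ∀ b ∈ ((fun a : U ≃ₗ[ZMod p] U => (a : Module.End (ZMod p) U)) '' (A : Set _)),
        a * b = b * a := by
    rintro _ ⟨a, ha, rfl⟩ _ ⟨b, hb, rfl⟩
    have := congrArg (fun g : U ≃ₗ[ZMod p] U => (g : Module.End (ZMod p) U)) (hA a ha b hb)
    exact this
  exact congrArg Subtype.val
    ((Algebra.adjoinCommRingOfComm (ZMod p) hc).mul_comm (⟨x, hx⟩ : Rg A) (⟨y, hy⟩ : Rg A))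

/-- conjugation on the algebra generated by `A` -/
noncomputable def Th {H A : Subgroup (U ≃ₗ[ZMod p] U)}
    (hn : ∀ h ∈ H, ∀ a ∈ A, h * a * h⁻¹ ∈ A) : H →* (Rg A ≃ₐ[ZMod p] Rg A) where
  toFun h :=
    { toFun := fun x => ⟨cj h.1 x.1, cj_mem hn h.2 x.2⟩
      invFun := fun x => ⟨cj h.1⁻¹ x.1, cj_mem hn (H.inv_mem h.2) x.2⟩
      left_inv := fun x => Subtype.ext (by
        show cj h.1⁻¹ (cj h.1 x.1) = x.1
        rw [← cj_mul, inv_mul_cancel, cj_one])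
      right_inv := fun x => Subtype.ext (by
        show cj h.1 (cj h.1⁻¹ x.1) = x.1
        rw [← cj_mul, mul_inv_cancel, cj_one])
      map_mul' := fun x y => Subtype.ext (map_mul (conj h.1) x.1 y.1)
      map_add' := fun x y => Subtype.ext (map_add (conj h.1) x.1 y.1)
      commutes' := fun c => Subtype.ext ((conj h.1).commutes c) }
  map_one' := by
    ext x
    exact congrArg (fun z : Module.End (ZMod p) U => z _) (cj_one x.1)
  map_mul' g h := by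
    ext x
    exact congrArg (fun z : Module.End (ZMod p) U => z _) (cj_mul g.1 h.1 x.1)

theorem Th_apply {H A : Subgroup (U ≃ₗ[ZMod p] U)}
    (hn : ∀ h ∈ H, ∀ a ∈ A, h * a * h⁻¹ ∈ A) (h : H) (x : Rg A) :
    ((Th hn h x : Rg A) : Module.End (ZMod p) U) = cj h.1 x.1 := rfl

theorem mem_Th_ker {H A : Subgroup (U ≃ₗ[ZMod p] U)}
    (hn : ∀ h ∈ H, ∀ a ∈ A, h * a * h⁻¹ ∈ A) (hA : ∀ a ∈ A, ∀ b ∈ A, a * b = b * a)
    (hC : ∀ h ∈ H, (∀ a ∈ A, h * a = a * h) → h ∈ A) (h : H) :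
    h ∈ (Th hn).ker ↔ h.1 ∈ A := by
  rw [MonoidHom.mem_ker]
  constructor
  · intro hh
    refine hC h.1 h.2 fun a ha => ?_
    have h1 : cj h.1 (a : Module.End (ZMod p) U) = a := by
      have := congrArg (fun φ : Rg A ≃ₐ[ZMod p] Rg A => ((φ ⟨_, mem_Rg ha⟩ : Rg A) :
        Module.End (ZMod p) U)) hh
      exact this
    rw [cj_coe] at h1
    have h2 : h.1 * a * h.1⁻¹ = a := by
      ext u
      exact congrArg (fun z : Module.End (ZMod p) U => z u) h1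
    exact mul_inv_eq_iff_eq_mul.1 h2
  · intro hh
    ext x
    have h1 : (h.1 : Module.End (ZMod p) U) * x.1 = x.1 * (h.1 : Module.End (ZMod p) U) :=
      Rg_comm hA (mem_Rg hh) x.2
    have h2 : cj h.1 x.1 = x.1 := by
      unfold cj
      rw [h1]
      ext u
      simp
    exact congrArg (fun z : Module.End (ZMod p) U => z _) h2

theorem twaM [Finite U] (H A : Subgroup (U ≃ₗ[ZMod p] U)) (q : ℕ)
    (e : Fin 2 → Module.End (ZMod p) U) (hAH : A ≤ H)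
    (hn : ∀ h ∈ H, ∀ a ∈ A, h * a * h⁻¹ ∈ A) (hA : ∀ a ∈ A, ∀ b ∈ A, a * b = b * a)
    (hC : ∀ h ∈ H, (∀ a ∈ A, h * a = a * h) → h ∈ A) (hD : Dec H A 2 q e)
    (a : ℕ) (hcard : ∀ i, Nat.card {z : Module.End (ZMod p) U // ∃ x ∈ Rg A, z = x * e i} = p ^ a) :
    ∃ (f : ℕ) (M : Subgroup (U ≃ₗ[ZMod p] U)), 0 < f ∧ A ≤ M ∧ M ≤ H ∧
      Nat.card H = 2 * Nat.card M ∧ Nat.card M = f * Nat.card A ∧ f ∣ a ^ 2 ∧
      (∀ x ∈ M, ∀ y ∈ M, x * y * x⁻¹ * y⁻¹ ∈ A) ∧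
      (2 ≤ a → f = a ^ 2 → ∃ x ∈ H, ∃ y ∈ H, x * y * x⁻¹ * y⁻¹ ∉ A) := by
  classical
  let _ : CommRing (Rg A) :=
    { (inferInstance : Ring (Rg A)) with mul_comm := fun x y => Subtype.ext (Rg_comm hA x.2 y.2) }
  have fU : Finite (Module.End (ZMod p) U) :=
    Finite.of_injective (fun f : Module.End (ZMod p) U => (f : U → U)) DFunLike.coe_injective
  have fH : Finite (U ≃ₗ[ZMod p] U) :=
    Finite.of_injective (fun f : U ≃ₗ[ZMod p] U => (f : U → U)) DFunLike.coe_injective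
  have cc : ∀ i, Nat.card {z : Rg A // ∃ x : Rg A, z = x * ⟨e i, hD.mem i⟩} = p ^ a := by
    intro i
    rw [← hcard i]
    refine Nat.card_congr ⟨fun z => ⟨z.1.1, ?_⟩, fun z => ⟨⟨z.1, ?_⟩, ?_⟩, fun z => rfl,
      fun z => rfl⟩
    · obtain ⟨x, hx⟩ := z.2
      exact ⟨x.1, x.2, congrArg Subtype.val hx⟩
    · obtain ⟨x, hx, h⟩ := z.2
      rw [h]
      exact (Rg A).mul_mem hx (hD.mem i)
    · obtain ⟨x, hx, h⟩ := z.2
      exact ⟨⟨x, hx⟩, Subtype.ext h⟩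
  have ff : ∀ i, ∀ x : Rg A, x * ⟨e i, hD.mem i⟩ ≠ 0 →
      ∃ y : Rg A, x * y * ⟨e i, hD.mem i⟩ = ⟨e i, hD.mem i⟩ := by
    intro i x hx
    obtain ⟨y, hy, h⟩ := hD.fld i x.1 x.2 (fun h => hx (Subtype.ext h))
    exact ⟨⟨y, hy⟩, Subtype.ext h⟩
  obtain ⟨t, ht, hte⟩ := hD.trans 0 1
  obtain ⟨M, hkM, hGM, f, hf0, hMf, hfa, hcm, hlast⟩ := abs_main (p := p) (R := Rg A) (a := a)
    ⟨e 0, hD.mem 0⟩ ⟨e 1, hD.mem 1⟩ (fun h => hD.ne 0 (congrArg Subtype.val h))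
    (fun h => hD.ne 1 (congrArg Subtype.val h)) (Subtype.ext (hD.idem 0)) (Subtype.ext (hD.idem 1))
    (Subtype.ext (hD.orth 0 1 (by decide))) (Subtype.ext (by
      have := hD.sum
      rw [Fin.sum_univ_two] at this
      exact this)) (ff 0) (ff 1) (cc 0) (cc 1) (Th hn) (fun g => by
      obtain ⟨j, hj⟩ := hD.perm g.1 g.2 0
      fin_cases j
      · left
        exact Subtype.ext hj
      · right
        exact Subtype.ext hj) ⟨⟨t, ht⟩, Subtype.ext hte⟩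
  have hk := mem_Th_ker hn hA hC
  have hcA : Nat.card (Th hn).ker = Nat.card A :=
    Nat.card_congr ⟨fun g => ⟨g.1.1, (hk g.1).1 g.2⟩,
      fun g => ⟨⟨g.1, hAH g.2⟩, (hk ⟨g.1, hAH g.2⟩).2 g.2⟩, fun g => rfl, fun g => rfl⟩
  have hcM : Nat.card (M.map H.subtype) = Nat.card M :=
    (Nat.card_congr (M.equivMapOfInjective H.subtype H.subtype_injective).toEquiv).symm
  refine ⟨f, M.map H.subtype, hf0, ?_, ?_, ?_, ?_, hfa, ?_, ?_⟩
  · intro a ha
    exact ⟨⟨a, hAH ha⟩, hkM ((hk ⟨a, hAH ha⟩).2 ha), rfl⟩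
  · rintro _ ⟨x, -, rfl⟩
    exact x.2
  · rw [hcM, hGM]
  · rw [hcM, hMf, hcA]
  · rintro _ ⟨x, hx, rfl⟩ _ ⟨y, hy, rfl⟩
    exact (hk _).1 (hcm x hx y hy)
  · intro h2 hfa2
    obtain ⟨x, y, hxy⟩ := hlast h2 hfa2
    exact ⟨x.1, x.2, y.1, y.2, fun h => hxy ((hk _).2 h)⟩

end appl

end Pool.Agent.Helper42.AG
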